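import Pool.Agent.Helper96.EL.Goals

/-!
# Project EL: packet MAIN0
-/

namespace Pool.Agent.Helper35.EL

open Pool.Agent.Helper96.EL NumberField Height
open Pool.Agent.Results.MP_e44225_nt.SUnitDisproof (logPlus Place nabs Above)

universe u

theorem main0 : CC.{u} → HGT.{u} → GRW.{u} → MAIN0.{u} := by
  intro hCC hHGT hGRW k _ _ _ W _ v ρ P hρ hP
  have hP' := Fintype.linearIndependent_iff.1 hP
  have hT0 : P ⟨0, hρ⟩ + P ⟨0, hρ⟩ ≠ 0 := by
    intro h0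
    have h1 := hP' (Pi.single ⟨0, hρ⟩ 2) (by
      rw [Finset.sum_eq_single (⟨0, hρ⟩ : Fin ρ)]
      · rw [Pi.single_eq_same, two_zsmul]; exact h0
      · intro b _ hb; rw [Pi.single_eq_of_ne hb, zero_smul]
      · intro h; exact absurd (Finset.mem_univ _) h) ⟨0, hρ⟩
    rw [Pi.single_eq_same] at h1
    exact two_ne_zero h1
  obtain ⟨c, hc, N₀, hCC'⟩ := hCC k W v _ hT0
  obtain ⟨C, hC, hH⟩ := hHGT k W
  have hnn : ∀ g : W.Point, 0 ≤ hx g := fun g => zero_le_logHeight₁ _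
  have hng : ∀ g : W.Point, hx (-g) = hx g := fun g => by
    unfold hx
    rw [xv_neg]
  obtain ⟨A, hA, hG⟩ := hGRW W.Point hx C hnn hng hH ρ P
  refine ⟨(ρ : ℝ) / 2 * Real.log (2 * (1 + A)) - 1 / 2 * Real.log (c / 4), ?_⟩
  intro R
  obtain ⟨M, hM⟩ : ∃ M : ℕ, M = max 2 (max (N₀ + 1) ⌈4 * R / c⌉₊) := ⟨_, rfl⟩
  have hM2 : 2 ≤ M := by rw [hM]; exact le_max_left _ _
  have hMN : N₀ + 1 ≤ M := by rw [hM]; exact le_trans (le_max_left _ _) (le_max_right _ _)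
  have hMR : 4 * R / c ≤ (M : ℝ) := by
    refine le_trans (Nat.le_ceil _) ?_
    rw [hM]
    exact_mod_cast le_trans (le_max_right _ _) (le_max_right _ _)
  have hMρ : M ≤ M ^ ρ := Nat.le_self_pow hρ.ne' M
  obtain ⟨Φ, hΦ⟩ : ∃ Φ : (Fin ρ → Fin M) → W.Point,
    Φ = fun n => ∑ i, ((n i : ℕ) : ℤ) • P i := ⟨_, rfl⟩
  have hdiff : ∀ n m : Fin ρ → Fin M, Φ n - Φ m =
      ∑ i, (((n i : ℕ) : ℤ) - ((m i : ℕ) : ℤ)) • P i := by
    intro n m
    rw [hΦ]
    simp only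
    rw [← Finset.sum_sub_distrib]
    refine Finset.sum_congr rfl fun i _ => ?_
    rw [sub_smul]
  have hinj : Function.Injective Φ := by
    intro n m hnm
    have h1 : ∑ i, (((n i : ℕ) : ℤ) - ((m i : ℕ) : ℤ)) • P i = 0 := by
      rw [← hdiff, hnm, sub_self]
    have h2 := hP' _ h1
    funext i
    have h3 := h2 i
    apply Fin.ext
    omega
  have hcard : (Finset.univ.image Φ).card = M ^ ρ := by
    rw [Finset.card_image_of_injective _ hinj]
    simp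
  obtain ⟨N, hN⟩ : ∃ N : ℕ, N = M ^ ρ - 1 := ⟨_, rfl⟩
  have hN1 : N + 1 = M ^ ρ := by omega
  obtain ⟨p, hp, q, hq, hpq, hbig⟩ := hCC' N (by omega) (Finset.univ.image Φ) (by omega)
  obtain ⟨n, -, rfl⟩ := Finset.mem_image.1 hp
  obtain ⟨m, -, rfl⟩ := Finset.mem_image.1 hq
  have hMpos : (0 : ℝ) < M := by
    have : 0 < M := by omega
    exact_mod_cast this
  have hM1 : (1 : ℝ) ≤ M := by
    have : 1 ≤ M := by omega
    exact_mod_cast this
  have hMr2 : (2 : ℝ) ≤ M := by exact_mod_cast hM2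
  have hNr : (M : ℝ) ^ ρ / 2 ≤ N := by
    have h1 : (N : ℝ) + 1 = (M : ℝ) ^ ρ := by exact_mod_cast hN1
    have h2 : (M : ℝ) ≤ (M : ℝ) ^ ρ := by exact_mod_cast hMρ
    linarith
  have hlow : c / 4 * (M : ℝ) ^ (2 * ρ) ≤ nabs v (xv (Φ n - Φ m)) := by
    refine le_trans ?_ hbig
    have h1 : ((M : ℝ) ^ ρ / 2) ^ 2 ≤ (N : ℝ) ^ 2 := pow_le_pow_left₀ (by positivity) hNr 2
    have h2 := mul_le_mul_of_nonneg_left h1 hc.le
    have e : c * ((M : ℝ) ^ ρ / 2) ^ 2 = c / 4 * (M : ℝ) ^ (2 * ρ) := by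
      rw [mul_comm 2 ρ, pow_mul]; ring
    rw [← e]
    exact h2
  have hhx : hx (Φ n - Φ m) ≤ A * (1 + (M : ℝ) ^ 2) := by
    rw [hdiff]
    refine hG _ M ?_
    intro i
    have h1 := (n i).2
    have h2 := (m i).2
    rw [abs_le]
    constructor <;> omega
  have hpos1 : (0 : ℝ) < c / 4 * (M : ℝ) ^ (2 * ρ) := by positivity
  refine ⟨Φ n - Φ m, sub_ne_zero.2 hpq, ?_, ?_⟩
  · refine le_trans ?_ hlow
    have h1 : (M : ℝ) ≤ (M : ℝ) ^ (2 * ρ) := by
      have : M ≤ M ^ (2 * ρ) := Nat.le_self_pow (by omega) M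
      exact_mod_cast this
    rw [div_le_iff₀ hc] at hMR
    have h2 := mul_le_mul_of_nonneg_left h1 (by positivity : (0 : ℝ) ≤ c / 4)
    nlinarith
  · have h0 := hnn (Φ n - Φ m)
    have h1 : 1 + hx (Φ n - Φ m) ≤ 2 * (1 + A) * (M : ℝ) ^ 2 := by
      have h3 : (1 : ℝ) ≤ (M : ℝ) ^ 2 := by nlinarith
      have h4 := mul_le_mul_of_nonneg_left h3 hA
      nlinarith
    have h2 : Real.log (1 + hx (Φ n - Φ m)) ≤ Real.log (2 * (1 + A)) + 2 * Real.log M := by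
      refine le_trans (Real.log_le_log (by linarith) h1) ?_
      rw [Real.log_mul (by positivity) (by positivity), Real.log_pow]
      push_cast
      exact le_refl _
    have h3 : Real.log (c / 4) + 2 * ρ * Real.log M ≤ Real.log (nabs v (xv (Φ n - Φ m))) := by
      refine le_trans ?_ (Real.log_le_log hpos1 hlow)
      rw [Real.log_mul (by positivity) (by positivity), Real.log_pow]
      push_cast
      exact le_refl _
    have h4 : (0 : ℝ) ≤ (ρ : ℝ) / 2 := by positivity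
    have h5 := mul_le_mul_of_nonneg_left h2 h4
    nlinarith

end Pool.Agent.Helper35.EL
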