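import Pool.Agent.Helper96.EL.Goals

/-!
# Project EL: packet PIGF
-/

namespace Pool.Agent.Helper35.EL

open Pool.Agent.Helper96.EL NumberField Height IsDedekindDomain
open Pool.Agent.Results.MP_e44225_nt.SUnitDisproof (logPlus Place nabs Above place_le_of_mem_pow
  exists_gen)

universe u

section

variable {k : Type u} [Field k] [NumberField k]

lemma place_eq (w : FinitePlace k) (x : k) : w x =
    (WithZeroMulInt.toNNReal (HeightOneSpectrum.absNorm_ne_zero w.maximalIdeal)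
      (w.maximalIdeal.valuation k x) : ℝ) := by
  rw [← FinitePlace.norm_embedding_eq, FinitePlace.norm_embedding']

lemma approx_int (w : FinitePlace k) (z : k) (hz : w z ≤ 1) (j : ℕ) :
    ∃ b : 𝓞 k, w (z - (b : k)) ≤ ((Ideal.absNorm w.maximalIdeal.asIdeal : ℝ) ^ j)⁻¹ := by
  have hmono := WithZeroMulInt.toNNReal_strictMono
    (HeightOneSpectrum.one_lt_absNorm_nnreal w.maximalIdeal)
  have hv : w.maximalIdeal.valuation k z ≤ 1 := by
    rw [place_eq] at hz
    have h1 : WithZeroMulInt.toNNReal (HeightOneSpectrum.absNorm_ne_zero w.maximalIdeal)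
      (w.maximalIdeal.valuation k z) ≤ WithZeroMulInt.toNNReal
        (HeightOneSpectrum.absNorm_ne_zero w.maximalIdeal) 1 := by
      rw [map_one]
      exact_mod_cast hz
    exact hmono.le_iff_le.1 h1
  have hne : (WithZero.exp (-(j:ℤ)) : WithZero (Multiplicative ℤ)) ≠ 0 := by simp
  obtain ⟨b, hb⟩ := HeightOneSpectrum.exists_valuation_sub_lt_of_integer w.maximalIdeal hv
    (Units.mk0 _ hne)
  refine ⟨b, ?_⟩
  rw [place_eq, Valuation.map_sub_swap]
  have h1 := hmono.monotone hb.le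
  have h2 : (WithZeroMulInt.toNNReal (HeightOneSpectrum.absNorm_ne_zero w.maximalIdeal))
      (WithZero.exp (-(j:ℤ))) = ((Ideal.absNorm w.maximalIdeal.asIdeal : NNReal) ^ j)⁻¹ := by
    rw [WithZeroMulInt.toNNReal_neg_apply _ (by simp)]
    have h3 : (WithZero.unzero (show (WithZero.exp (-(j:ℤ)) : WithZero (Multiplicative ℤ)) ≠ 0 by simp))
        = Multiplicative.ofAdd (-(j:ℤ)) := by
      rw [← WithZero.coe_inj, WithZero.coe_unzero]
      rfl
    rw [h3]
    simp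
  rw [Units.val_mk0, h2] at h1
  exact_mod_cast h1

end

theorem pigf : PIGF.{u} := by
  classical
  intro k _ _ w R
  obtain ⟨q, hq⟩ : ∃ q : ℕ, q = Ideal.absNorm w.maximalIdeal.asIdeal := ⟨_, rfl⟩
  have hq1 : 1 < q := by rw [hq]; exact HeightOneSpectrum.one_lt_absNorm w.maximalIdeal
  obtain ⟨ϖ, hϖ1, hϖ0, -⟩ := exists_gen w
  have hR : (0 : ℝ) < (|R| + 1)⁻¹ := by positivity
  have hϖpos : 0 < w (ϖ : k) := lt_of_le_of_ne (apply_nonneg _ _) (Ne.symm hϖ0)
  obtain ⟨n, hn⟩ := exists_pow_lt_of_lt_one hR hϖ1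
  obtain ⟨d, hd⟩ : ∃ d : k, d = (ϖ : k) ^ n := ⟨_, rfl⟩
  have hwd : w d = w (ϖ : k) ^ n := by rw [hd, map_pow]
  have hwd0 : 0 < w d := by rw [hwd]; positivity
  have hwdR : ∀ x : k, w x ≤ R → w (d * x) ≤ 1 := by
    intro x hx
    rw [map_mul, hwd]
    have h1 : w x ≤ |R| + 1 := le_trans hx (by linarith [le_abs_self R])
    calc w (ϖ : k) ^ n * w x ≤ (|R| + 1)⁻¹ * (|R| + 1) :=
          mul_le_mul hn.le h1 (apply_nonneg _ _) hR.le
      _ = 1 := inv_mul_cancel₀ (by positivity)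
  have hq0 : (0 : ℝ) < q := by exact_mod_cast (by omega : 0 < q)
  refine ⟨3 * q / w d, by positivity, ?_⟩
  intro N hN
  obtain ⟨j, hj⟩ : ∃ j, j = Nat.log q N := ⟨_, rfl⟩
  have hjN : q ^ j ≤ N := by rw [hj]; exact Nat.pow_log_le_self q (by omega)
  have hNj : N < q ^ (j + 1) := by rw [hj]; exact Nat.lt_pow_succ_log_self hq1 N
  have hNpos : (0 : ℝ) < N := by exact_mod_cast hN
  have heps : ((q : ℝ) ^ j)⁻¹ ≤ q / N := by
    rw [inv_eq_one_div, div_le_div_iff₀ (by positivity) hNpos]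
    have h1 : (N : ℝ) < (q : ℝ) ^ (j + 1) := by exact_mod_cast hNj
    rw [pow_succ] at h1
    linarith
  obtain ⟨I, hI⟩ : ∃ I : Ideal (𝓞 k), I = w.maximalIdeal.asIdeal ^ j := ⟨_, rfl⟩
  have hInorm : Nat.card (𝓞 k ⧸ I) = q ^ j := by
    rw [← Submodule.cardQuot_apply, ← Ideal.absNorm_apply, hI, map_pow, ← hq]
  have hfin : Finite (𝓞 k ⧸ I) := by
    apply Nat.finite_of_card_ne_zero
    rw [hInorm]
    exact pow_ne_zero _ (by omega)
  let ι : (𝓞 k ⧸ I) ≃ Fin (q ^ j) := Finite.equivFinOfCardEq hInorm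
  have hb : ∀ x : k, ∃ b : 𝓞 k, w x ≤ R → w (d * x - (b : k)) ≤ ((q : ℝ) ^ j)⁻¹ := by
    intro x
    by_cases hx : w x ≤ R
    · obtain ⟨b, hb⟩ := approx_int w (d * x) (hwdR x hx) j
      rw [← hq] at hb
      exact ⟨b, fun _ => hb⟩
    · exact ⟨0, fun h => absurd h hx⟩
  choose b hb using hb
  refine ⟨fun x => Fin.castLE hjN (ι (Ideal.Quotient.mk I (b x))), ?_⟩
  intro x x' hx hx' hxx
  have h1 : Ideal.Quotient.mk I (b x) = Ideal.Quotient.mk I (b x') :=
    ι.injective (Fin.castLE_injective hjN hxx)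
  have h2 : b x - b x' ∈ w.maximalIdeal.asIdeal ^ j := by
    rw [← hI, ← Ideal.Quotient.eq]
    exact h1
  have h3 := place_le_of_mem_pow w j _ h2
  rw [← hq] at h3
  have h4 := hb x hx
  have h5 := hb x' hx'
  have e : d * (x - x') = (d * x - (b x : k)) + (((b x - b x' : 𝓞 k) : k) - (d * x' - (b x' : k))) := by
    push_cast
    ring
  have h6 : w (d * (x - x')) ≤ 3 * (q / N) := by
    rw [e]
    have h7 := map_add_le_add w (d * x - (b x : k))
      (((b x - b x' : 𝓞 k) : k) - (d * x' - (b x' : k)))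
    have h8 := map_sub_le_add w ((b x - b x' : 𝓞 k) : k) (d * x' - (b x' : k))
    linarith
  rw [map_mul] at h6
  have e2 : 3 * (q : ℝ) / w d / N = 3 * (q / N) / w d := by
    field_simp
  rw [e2, le_div_iff₀ hwd0]
  linarith

end Pool.Agent.Helper35.EL
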