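import Pool.Agent.Helper96.EL.Goals

/-!
# Project EL: packet SHIFT
-/

namespace Pool.Agent.Helper35.EL

open Pool.Agent.Helper96.EL

universe u

theorem shift : BND.{u} → SHIFT.{u} := by
  intro hB F _ _ _ a W _ T hT
  obtain ⟨-, R₀, C, -, hC, hpsi, -⟩ := hB F a W
  obtain ⟨t, ht⟩ : ∃ t, t = xv T := ⟨_, rfl⟩
  obtain ⟨y, hy⟩ : ∃ y, y = Yv T := ⟨_, rfl⟩
  have h2 : (0 : ℝ) < a 2 := a.pos two_ne_zero
  obtain ⟨C₁, hC₁⟩ : ∃ C₁ : ℝ, C₁ = a (2 * t) + a (2 * t ^ 2 + W.b₂ * t + W.b₄) +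
    a (W.b₄ * t + W.b₆) := ⟨_, rfl⟩
  obtain ⟨R₂, hR₂⟩ : ∃ R₂ : ℝ, R₂ = 4 * (C₁ + √C * a y) / a 2 := ⟨_, rfl⟩
  refine ⟨max (max 1 (2 * a t)) (max R₂ (a t)), ?_⟩
  intro Q hQ
  rcases hQ with hQ | hQ
  · rw [hQ, zero_add]
    refine ⟨hT, ?_⟩
    rw [← ht]
    exact le_trans (le_max_right _ _) (le_max_right _ _)
  obtain ⟨x, hx⟩ : ∃ x, x = xv Q := ⟨_, rfl⟩
  rw [← hx] at hQ
  have hx1 : 1 < a x := lt_of_le_of_lt (le_trans (le_max_left _ _) (le_max_left _ _)) hQ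
  have hxt : 2 * a t < a x := lt_of_le_of_lt (le_trans (le_max_right _ _) (le_max_left _ _)) hQ
  have hx0 : (0 : ℝ) < a x := by linarith
  have hQ0 : Q ≠ 0 := by
    intro h0
    rw [h0, xv_zero] at hx
    rw [hx, map_zero] at hx0
    exact lt_irrefl _ hx0
  have hsub : a x / 2 ≤ a (x - t) := by
    have h := a.add_le (x - t) t
    rw [sub_add_cancel] at h
    linarith
  have hne : xv Q ≠ xv T := by
    rw [← hx, ← ht]
    intro h
    rw [h, sub_self, map_zero] at hsub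
    rw [h] at hx0
    linarith
  obtain ⟨hne0, hform⟩ := add_formula hQ0 hT hne
  refine ⟨hne0, ?_⟩
  rw [← hx, ← ht, ← hy] at hform
  have hAA : a (AA W x t) ≤ C₁ * a x ^ 2 := by
    have e : AA W x t = 2 * t * x ^ 2 + (2 * t ^ 2 + W.b₂ * t + W.b₄) * x + (W.b₄ * t + W.b₆) := by
      simp only [AA]; ring
    rw [e]
    have h1 := a.add_le (2 * t * x ^ 2 + (2 * t ^ 2 + W.b₂ * t + W.b₄) * x) (W.b₄ * t + W.b₆)
    have h3 := a.add_le (2 * t * x ^ 2) ((2 * t ^ 2 + W.b₂ * t + W.b₄) * x)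
    rw [map_mul a (2 * t) (x ^ 2), map_pow, map_mul a (2 * t ^ 2 + W.b₂ * t + W.b₄) x] at h3
    have h4 : a x ≤ a x ^ 2 := by nlinarith
    have h5 : (1 : ℝ) ≤ a x ^ 2 := by nlinarith
    have h6 := mul_le_mul_of_nonneg_left h4 (a.nonneg (2 * t ^ 2 + W.b₂ * t + W.b₄))
    have h7 := mul_le_mul_of_nonneg_left h5 (a.nonneg (W.b₄ * t + W.b₆))
    rw [hC₁]
    nlinarith
  have hY : a (Yv Q) ≤ √C * a x ^ 2 := by
    have h1 : a (Yv Q) ^ 2 ≤ C * a x ^ 4 := by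
      rw [← map_pow, Yv_sq hQ0, ← hx]
      refine le_trans (hpsi x hx1.le) ?_
      refine mul_le_mul_of_nonneg_left ?_ hC
      exact pow_le_pow_right₀ hx1.le (by norm_num)
    have h3 : a (Yv Q) ^ 2 ≤ (√C * a x ^ 2) ^ 2 := by
      rw [mul_pow, Real.sq_sqrt hC]
      calc a (Yv Q) ^ 2 ≤ C * a x ^ 4 := h1
        _ = C * (a x ^ 2) ^ 2 := by ring
    exact (pow_le_pow_iff_left₀ (a.nonneg _) (by positivity) two_ne_zero).1 h3
  have hfin : a 2 * a (xv (Q + T)) * a (x - t) ^ 2 ≤ (C₁ + √C * a y) * a x ^ 2 := by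
    have h1 : a 2 * a (xv (Q + T)) * a (x - t) ^ 2 = a (AA W x t - Yv Q * y) := by
      rw [← hform, map_mul, map_mul, map_pow]
    rw [h1]
    have h3 : a (AA W x t - Yv Q * y) ≤ a (AA W x t) + a (Yv Q * y) := by
      have := a.add_le (AA W x t) (-(Yv Q * y))
      rw [← sub_eq_add_neg, a.map_neg] at this
      exact this
    rw [map_mul] at h3
    have h4 := mul_le_mul_of_nonneg_right hY (a.nonneg y)
    nlinarith
  have hx3 : a (xv (Q + T)) ≤ R₂ := by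
    rw [hR₂, le_div_iff₀ h2]
    have h3 : (a x / 2) ^ 2 ≤ a (x - t) ^ 2 := pow_le_pow_left₀ (by positivity) hsub 2
    have h4 : a 2 * a (xv (Q + T)) * (a x / 2) ^ 2 ≤ (C₁ + √C * a y) * a x ^ 2 :=
      le_trans (mul_le_mul_of_nonneg_left h3 (mul_nonneg h2.le (a.nonneg _))) hfin
    have h5 : (a (xv (Q + T)) * a 2) * a x ^ 2 ≤ (4 * (C₁ + √C * a y)) * a x ^ 2 := by
      nlinarith
    exact le_of_mul_le_mul_right h5 (by positivity)
  exact le_trans hx3 (le_trans (le_max_left _ _) (le_max_right _ _))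

end Pool.Agent.Helper35.EL
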